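import Pool.Agent.H39.Bei.Defs

/-!
# Poles of L-functions: definitions
-/

set_option autoImplicit false

open CategoryTheory AlgebraicGeometry Pool.Agent.Y116.UV Pool.Agent.H39.Bei Filter Topology

universe w

namespace Pool.Agent.H39.Pole

/-- The functions `ℝ → ℂˣ` which have a finite nonzero limit as `u → 0`, `u > 0`. -/
def limitFuns : Subgroup (ℝ → ℂˣ) where
  carrier := {f | ∃ l : ℂˣ, Tendsto f (𝓝[>] 0) (𝓝 l)}
  one_mem' := ⟨1, tendsto_const_nhds⟩
  mul_mem' := by
    rintro f g ⟨l, hl⟩ ⟨m, hm⟩
    exact ⟨l * m, hl.mul hm⟩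
  inv_mem' := by
    rintro f ⟨l, hl⟩
    exact ⟨l⁻¹, hl.inv⟩

/-- The group of the functions `ℝ → ℂˣ` modulo the functions with a finite nonzero limit as `u → 0`,
`u > 0`, written additively. -/
abbrev Growth : Type := Additive ((ℝ → ℂˣ) ⧸ limitFuns)

/-- The function `u ↦ u`. -/
noncomputable def var : ℝ → ℂˣ := fun u => if h : u = 0 then 1 else Units.mk0 (u : ℂ) (by exact_mod_cast h)

/-- For the schemes `X` over the finitely generated field `k` and `j ≥ 0`: the values
`L X j u = L(s₀ + u)`, `u > 0`, of the L-function of `H^(2j)(X)`, where `s₀ = j + dim_a(k)` is the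
abscissa of convergence, and the group `A X j` of the algebraic cycles of codimension `j` modulo
homological equivalence, with rational coefficients. -/
structure PoleData (k : Type) [Field k] where
  /-- the L-function -/
  L : Sch k → ℕ → ℝ → ℂˣ
  /-- the algebraic cycles modulo homological equivalence -/
  A : Sch k → ℕ → ModuleCat.{w} ℚ

variable {k : Type} [Field k]

/-- The order of the pole of the L-function of `H^(2j)(X)` at `s₀` is defined and equal to the rank of
`A^j(X)`. -/
def PoleData.HoldsAt (D : PoleData.{w} k) (X : Sch k) (j : ℕ) : Prop :=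
  ∃ l : ℂ, l ≠ 0 ∧ Tendsto (fun u : ℝ => (u : ℂ) ^ (Module.finrank ℚ (D.A X j)) * (D.L X j u : ℂ))
    (𝓝[>] 0) (𝓝 l)

/-- **The conjecture for `X`**: the order of the pole of the L-function of `H^(2j)(X)` at
`s₀ = j + dim_a(k)` is defined and equal to the rank of `A^j(X)`, for all `j`. -/
def PoleData.Holds (D : PoleData.{w} k) (X : Sch k) : Prop := ∀ j, D.HoldsAt X j

/-- The known part of the conjecture: the extreme degrees `j = 0` and `j = dim X`, and `j > dim X`. -/
def PoleData.Ends (D : PoleData.{w} k) (Q : Sch k → Prop) : Prop :=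
  ∀ X, Q X → ∀ d : ℕ, topologicalKrullDim X.left = d → ∀ j, j = 0 ∨ d ≤ j → D.HoldsAt X j

/-- `δ` is an additive invariant of the separated schemes of finite type over `k` with coefficients in
the group `Growth`. For the varieties `X` of the class `Q` its coefficient at `j ≥ 0` is the class of
the function `u ↦ u^(rank A^j(X)) L(s₀ + u)`. -/
structure PoleData.IsDefect (D : PoleData.{w} k) (Q : Sch k → Prop) (δ : Sch k → ℤ → Growth) :
    Prop where
  additive : IsAdditive δ
  value : ∀ X, Q X → ∀ j : ℕ, δ X j =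
    Additive.ofMul ((var ^ (Module.finrank ℚ (D.A X j)) * D.L X j : ℝ → ℂˣ) : (ℝ → ℂˣ) ⧸ limitFuns)
  neg : ∀ X, Q X → ∀ c : ℤ, c < 0 → δ X c = 0

end Pool.Agent.H39.Pole
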