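import Pool.Agent.H39.Pole.Defs
import Pool.Agent.H39.Bei.Bnd
import Pool.Agent.H39.Fin

/-!
# Poles of L-functions
-/

set_option autoImplicit false

open CategoryTheory AlgebraicGeometry Pool.Agent.Y116.UV Pool.Agent.H39.Bei
  Pool.Agent.H89.Dev Pool.Agent.W5h38.TV Pool.Agent.W5h68.SP Filter Topology

universe w

namespace Pool.Agent.H39.Pole

variable {k : Type} [Field k] {D : PoleData.{w} k} {Q : Sch k → Prop}

lemma mem_limitFuns {f : ℝ → ℂˣ} : f ∈ limitFuns ↔
    ∃ l : ℂ, l ≠ 0 ∧ Tendsto (fun u => (f u : ℂ)) (𝓝[>] 0) (𝓝 l) := by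
  constructor
  · rintro ⟨l, hl⟩
    exact ⟨l, l.ne_zero, (Units.continuous_val.tendsto l).comp hl⟩
  · rintro ⟨l, hl, h⟩
    refine ⟨Units.mk0 l hl, ?_⟩
    rw [Units.isEmbedding_val₀.tendsto_nhds_iff]
    exact h

lemma holdsAt_iff {δ : Sch k → ℤ → Growth} (hδ : D.IsDefect Q δ) {X : Sch k} (hX : Q X) (j : ℕ) :
    D.HoldsAt X j ↔ δ X j = 0 := by
  rw [hδ.value X hX j, ofMul_eq_zero, QuotientGroup.eq_one_iff, mem_limitFuns]
  refine exists_congr fun l => and_congr Iff.rfl (tendsto_congr' ?_)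
  filter_upwards [self_mem_nhdsWithin] with u hu
  have hu' : u ≠ 0 := ne_of_gt hu
  simp only [Pi.mul_apply, Pi.pow_apply, Units.val_mul, Units.val_pow_eq_pow_val, var, dif_neg hu',
    Units.val_mk0]

/-- A number for the dimension. -/
lemma exists_dim {X : Type} [TopologicalSpace X] [Nonempty X] {n : ℕ}
    (h : topologicalKrullDim X ≤ n) : ∃ d : ℕ, topologicalKrullDim X = d ∧ d ≤ n := by
  have hn : Nonempty (TopologicalSpace.IrreducibleCloseds X) :=
    ⟨⟨closure {Classical.arbitrary X}, isIrreducible_singleton.closure, isClosed_closure⟩⟩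
  have h0 : (0 : WithBot ℕ∞) ≤ topologicalKrullDim X := Order.krullDim_nonneg
  generalize topologicalKrullDim X = x at h0 h
  induction x using WithBot.recBotCoe with
  | bot => exact absurd h0 (by decide)
  | coe e =>
    have h1 : e ≤ (n : ℕ∞) := WithBot.coe_le_coe.mp h
    obtain ⟨d, rfl⟩ := ENat.ne_top_iff_exists.mp (ne_top_of_le_ne_top (ENat.natCast_ne_top n) h1)
    exact ⟨d, rfl, by exact_mod_cast h1⟩

theorem pole_iff {δ : Sch k → ℤ → Growth} (hδ : D.IsDefect Q δ) {X : Sch k} (hX : Q X) :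
    D.Holds X ↔ Zero δ X := by
  constructor
  · intro h c
    rcases lt_or_ge c 0 with hc | hc
    · exact hδ.neg X hX c hc
    · obtain ⟨m, rfl⟩ := Int.eq_ofNat_of_zero_le hc
      exact (holdsAt_iff hδ hX m).mp (h m)
  · intro h j
    exact (holdsAt_iff hδ hX j).mpr (h j)

/-- The conjecture is true in dimension at most one. -/
theorem pole_low (hQ : IsClass Q) (hD : D.Ends Q) : ForClass Q D.Holds 1 := by
  intro X hX hd j
  have : IrreducibleSpace X.left := hQ.irreducible X hX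
  obtain ⟨d, h1, h2⟩ := exists_dim hd
  exact hD X hX d h1 j (by omega)

/-- **The class and the torus schemes.** -/
theorem class_iff_all [PerfectField k] {δ : Sch k → ℤ → Growth} {n : ℕ} (hδ : D.IsDefect Q δ)
    (hQ : IsClass Q) (hM : ModelsIn Q n) :
    (ForClass Q D.Holds n ↔ ∀ X : Sch k, Built n X → Zero δ X) ∧
    (ForClass Q D.Holds n ↔
      ∀ X : Sch k, FT True X → topologicalKrullDim X.left ≤ n → Zero δ X) := by
  have hB := bnd_additive hδ.additive
  have h0 : ForClass Q D.Holds n ↔ ForClass Q (Zero δ) n :=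
    forall_congr' fun X => forall_congr' fun hX => forall_congr' fun _ => pole_iff hδ hX
  refine ⟨h0.trans (class_iff_built hB hQ hM), ⟨fun h => devissage hB hQ hM (h0.mp h), fun h => ?_⟩⟩
  exact h0.mpr fun X hX hn => h X (hQ.ft hX) hn

/-- **Finitely many varieties.** -/
theorem fin_built [PerfectField k] {n : ℕ} (hQ : IsClass Q) (hM : ModelsIn Q n) (X : Sch k)
    (hX : Built n X) : ∃ 𝒴 : List (Sch k), (∀ Y ∈ 𝒴, Q Y ∧ topologicalKrullDim Y.left ≤ n) ∧
      ∀ (D : PoleData.{w} k) (δ : Sch k → ℤ → Growth), D.IsDefect Q δ →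
        (∀ Y ∈ 𝒴, D.Holds Y) → Zero δ X ∧ (Q X → D.Holds X) := by
  obtain ⟨L, h1, h2⟩ := Pool.Agent.H39.finGen_built
    (Θ := {p : PoleData.{w} k × (Sch k → ℤ → Growth) // p.1.IsDefect Q p.2})
    (Z := fun θ => Zero θ.1.2) (fun θ => bnd_additive θ.2.additive) hQ hM X hX
  refine ⟨L, h1, fun D δ hδ h3 => ?_⟩
  have h4 : Zero δ X := h2 ⟨(D, δ), hδ⟩ fun Y hY => (pole_iff hδ (h1 Y hY).1).mp (h3 Y hY)
  exact ⟨h4, fun hQX => (pole_iff hδ hQX).mpr h4⟩

end Pool.Agent.H39.Pole
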